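import Pool.Agent.TH57.FF.Bd

set_option autoImplicit false

/-! Every boundary matrix of a free resolution of the trivial module can be replaced by one of
operator norm as close to `3 / √2` as one likes. -/

namespace Pool.Agent.Results.MP_d19827_al.BoundaryReduction

open TH57.FF TH57.Thr

/-- Let `G` be any group with an exact sequence `F_{n+1} → F_n → ... → F_0 → ℤ → 0` of
`ℤG`-modules in which all `F_i` are free with finite bases (for instance a group of type `FP`),
and let `c > 3 / √2`.
(1) There is such a sequence (with the same `n`) in which the matrix of `F_{n+1} → F_n` has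
`ℓ²`-operator norm at most `c`.
(2) So for every class `𝒞` of groups and all `n`, `N` the following are equivalent: all torsion-free
groups in `𝒞` with an exact sequence as above have a free resolution of length at most `N`; all
torsion-free groups in `𝒞` with an exact sequence as above whose last matrix `F_{n+1} → F_n` has
norm at most `c` have a free resolution of length at most `N`.
(3) The constant is optimal: torsion-free groups with a matrix of norm less than `3 / √2` are of
type `FF` (this part is a starting result). -/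
theorem result :
    (∀ (G : Type) [Group G] (n m k : ℕ) (A : Matrix (Fin m) (Fin k) (MonoidAlgebra ℤ G)),
      Bd G n A → ∀ c : ℝ, 9 / 2 < c ^ 2 →
      ∃ (m' k' : ℕ) (A' : Matrix (Fin m') (Fin k') (MonoidAlgebra ℤ G)),
        Bd G n A' ∧ NormLE A' c) ∧
    (∀ (𝒞 : ∀ (G : Type) [Group G], Prop) (n N : ℕ) (c : ℝ), 9 / 2 < c ^ 2 →
      ((∀ (G : Type) [Group G], 𝒞 G → (∀ g : G, IsOfFinOrder g → g = 1) →
          (∃ (m k : ℕ) (A : Matrix (Fin m) (Fin k) (MonoidAlgebra ℤ G)), Bd G n A) → FFle G N) ↔
        (∀ (G : Type) [Group G], 𝒞 G → (∀ g : G, IsOfFinOrder g → g = 1) →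
          (∃ (m k : ℕ) (A : Matrix (Fin m) (Fin k) (MonoidAlgebra ℤ G)),
            Bd G n A ∧ NormLE A c) → FFle G N))) ∧
    (∀ (G : Type) [Group G], (∀ g : G, IsOfFinOrder g → g = 1) → ∀ (n m k : ℕ)
      (A : Matrix (Fin m) (Fin k) (MonoidAlgebra ℤ G)), Bd G n A →
      ∀ c : ℝ, 0 < c → c ^ 2 < 9 / 2 → NormLE A c → FFle G (n + 3)) := by
  refine ⟨fun G _ n m k A hA c hc => Bd_red n A hA c hc, ?_, ?_⟩
  · intro 𝒞 n N c hc
    constructor
    · intro h G _ h1 h2 ⟨m, k, A, h3, _⟩
      exact h G h1 h2 ⟨m, k, A, h3⟩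
    · intro h G _ h1 h2 ⟨m, k, A, h3⟩
      obtain ⟨m', k', A', h4, h5⟩ := Bd_red n A h3 c hc
      exact h G h1 h2 ⟨m', k', A', h4, h5⟩
  · intro G _ htf n m k A hA c hc0 hc hnorm
    exact small_boundary (fun g k hk h => htf g (isOfFinOrder_iff_pow_eq_one.2 ⟨k, hk, h⟩)) n A hA c
      hc0 hc hnorm

end Pool.Agent.Results.MP_d19827_al.BoundaryReduction
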